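import Pool.Agent.KS6_81.RPS.Two
import Pool.Agent.KS6_81.RPS.Table

/-!
# The `(3, 8)` recursively partitionable semistars

There are exactly two: `K_3 (1, 1, 1, 2, 2, 3, 4, 6)` and `K_3 (1, 1, 1, 2, 3, 4, 6, 8)`.

`RP V G` (in `Pool.Agent.KS6_81.RPS.Def`) is the definition of the problem: `V` has one element, or
`G` is connected and for all positive `a 0, …, a (k-1)`, `k ≥ 2`, with sum the order of `G` there is
a partition of `V` into classes of sizes `a i` each of which induces a recursively partitionable
graph. `semistar b0 b` is the graph `K_{b0} (b 0, …, b (k-1))`.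
-/

set_option autoImplicit false

namespace Pool.Agent.Results.MP_33d24b_co.ExactlyTwo

open Pool.Agent.KS6_81.RPS

/-- the parameter lists of the `(b0, k)` RP semistars: increasing lists of `k` positive integers `b`
such that `K_{b0} (b)` is recursively partitionable -/
def rpSemistars (b0 k : ℕ) : Set (Fin k → ℕ) :=
  {b | Monotone b ∧ (∀ i, 1 ≤ b i) ∧ RP _ (semistar b0 b)}

/-- The `(3, 8)` RP semistars are exactly `K_3 (1, 1, 1, 2, 2, 3, 4, 6)` and
`K_3 (1, 1, 1, 2, 3, 4, 6, 8)`; their number is two. -/
theorem result :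
    rpSemistars 3 8 = {![1, 1, 1, 2, 2, 3, 4, 6], ![1, 1, 1, 2, 3, 4, 6, 8]} ∧
      (rpSemistars 3 8).ncard = 2 := by
  have h : rpSemistars 3 8 = {![1, 1, 1, 2, 2, 3, 4, 6], ![1, 1, 1, 2, 3, 4, 6, 8]} := by
    apply Set.Subset.antisymm
    · rintro b ⟨hm, hp, hR⟩
      have h := mem_G3 b hp hm hR
      have e1 : List.ofFn (![1, 1, 1, 2, 2, 3, 4, 6] : Fin 8 → ℕ) = [1, 1, 1, 2, 2, 3, 4, 6] := by
        decide
      have e2 : List.ofFn (![1, 1, 1, 2, 3, 4, 6, 8] : Fin 8 → ℕ) = [1, 1, 1, 2, 3, 4, 6, 8] := by
        decide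
      unfold G3 at h
      rw [← e1, ← e2, List.mem_cons, List.mem_cons] at h
      rcases h with h | h | h
      · exact Or.inl (List.ofFn_injective h)
      · exact Or.inr (List.ofFn_injective h)
      · cases h
    · rintro b (rfl | hb)
      · refine ⟨?_, ?_, RP_example⟩
        · intro i j hij
          revert i j
          decide
        · decide
      · rw [Set.mem_singleton_iff] at hb
        subst hb
        refine ⟨?_, ?_, RP_example2⟩
        · intro i j hij
          revert i j
          decide
        · decide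
  refine ⟨h, ?_⟩
  rw [h]
  refine Set.ncard_pair fun hh => ?_
  have := congrFun hh 4
  revert this
  decide

end Pool.Agent.Results.MP_33d24b_co.ExactlyTwo
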